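import Mathlib

namespace Pool.Agent.Results.MP_6f811f_co.Lower

open Finset

variable {n r : ℕ}

/-- the edges of colour `k` of `K_{n,n}` under the colouring `c` -/
def colG (c : Fin n → Fin n → Fin r) (k : Fin r) : SimpleGraph (Fin n ⊕ Fin n) :=
  SimpleGraph.fromRel fun x y => ∃ a b, x = .inl a ∧ y = .inr b ∧ c a b = k

/-- `S` is the vertex set of a monochromatic tree -/
def MonoTree (c : Fin n → Fin n → Fin r) (S : Set (Fin n ⊕ Fin n)) : Prop :=
  ∃ (k : Fin r) (H : (colG c k).Subgraph), H.coe.IsTree ∧ H.verts = S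

/-- least number of monochromatic trees covering all vertices -/
noncomputable def cover (c : Fin n → Fin n → Fin r) : ℕ :=
  sInf {t | ∃ T : Fin t → Set (Fin n ⊕ Fin n), (∀ i, MonoTree c (T i)) ∧ ∀ x, ∃ i, x ∈ T i}

/-- `tc_r(K_{n,n})` -/
noncomputable def tc (r n : ℕ) : ℕ := univ.sup fun c : Fin n → Fin n → Fin r => cover c

lemma count {s : ℕ} (P : Finset (Fin s × Fin (s + 1))) (h1 : ∀ i, ∃ k, (i, k) ∈ P)
    (h2 : ∀ f : Fin s ↪ Fin (s + 1), ∃ i, (i, f i) ∈ P) : 2 * s ≤ P.card := by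
  by_contra hP
  obtain ⟨f, hf, hf2⟩ := (Fintype.all_card_le_filter_rel_iff_exists_injective
    (fun i k => (i, k) ∉ P)).1 fun I => by
      by_contra hI
      let N := univ.filter fun k => ∃ i ∈ I, (i, k) ∉ P
      have hN : N.card < I.card := by convert Nat.lt_of_not_le hI
      choose g hg using h1
      have hs : I ×ˢ Nᶜ ∪ Iᶜ.image (fun i => (i, g i)) ⊆ P := fun z hz => by
        rcases mem_union.1 hz with h | h
        · have := mem_product.1 h
          by_contra hz
          exact mem_compl.1 this.2 (mem_filter.2 ⟨mem_univ _, _, this.1, hz⟩)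
        · obtain ⟨i, -, rfl⟩ := mem_image.1 h
          exact hg i
      have hc := card_le_card hs
      rw [card_union_of_disjoint (disjoint_left.2 fun z h1 h2 => by
          obtain ⟨i, hi, rfl⟩ := mem_image.1 h2
          exact mem_compl.1 hi (mem_product.1 h1).1), card_product,
        card_image_of_injective _ fun a b h => congrArg Prod.fst h] at hc
      have a1 := card_add_card_compl I
      have a2 := card_add_card_compl N
      simp only [Fintype.card_fin] at a1 a2
      obtain ⟨a, ha⟩ : ∃ a, I.card = a + 1 := ⟨I.card - 1, by omega⟩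
      have : Iᶜ.card + 2 ≤ Nᶜ.card := by omega
      rw [ha] at hc a1
      nlinarith
  obtain ⟨i, hi⟩ := h2 ⟨f, hf⟩
  exact hf2 i hi

theorem result (r n : ℕ) (hr : 2 ≤ r) (hn : r.factorial ≤ n) : 2 * r - 2 ≤ tc r n := by
  classical
  obtain ⟨s, rfl⟩ : ∃ s, r = s + 2 := ⟨r - 2, by omega⟩
  have hs : s + 1 ≤ n := (Nat.le_succ _).trans ((Nat.self_le_factorial _).trans hn)
  obtain ⟨α, hα⟩ : ∃ α : Fin n → Fin (s + 1), Function.Surjective α :=
    ⟨_, Function.invFun_surjective (Fin.castLE_injective hs)⟩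
  have : Nonempty (Fin (s + 1) ↪ Fin (s + 2)) := ⟨Fin.castSuccEmb⟩
  obtain ⟨π, hπ⟩ : ∃ π : Fin n → (Fin (s + 1) ↪ Fin (s + 2)), Function.Surjective π := by
    obtain ⟨e⟩ : Nonempty ((Fin (s + 1) ↪ Fin (s + 2)) ↪ Fin n) :=
      Function.Embedding.nonempty_of_card_le (by
        simp only [Fintype.card_embedding_eq, Fintype.card_fin]
        have := Nat.factorial_mul_descFactorial (n := s + 2) (k := s + 1) (by omega)
        rw [show s + 2 - (s + 1) = 1 by omega, Nat.factorial_one] at this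
        omega)
    exact ⟨_, Function.invFun_surjective e.2⟩
  let c : Fin n → Fin n → Fin (s + 2) := fun a b => π b (α a)
  refine le_trans ?_ (le_sup (f := fun c => cover c) (mem_univ c))
  refine le_csInf ⟨Fintype.card (Fin n ⊕ Fin n), fun i => {(Fintype.equivFin _).symm i},
    fun i => ⟨0, SimpleGraph.singletonSubgraph _ _, ?_, rfl⟩,
    fun x => ⟨Fintype.equivFin _ x, by simp⟩⟩ ?_
  · exact ⟨SimpleGraph.Subgraph.singletonSubgraph_connected.coe, fun v w hw => by
      cases w with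
      | nil => exact hw.ne_nil rfl
      | cons h _ => exact h⟩
  rintro t ⟨T, hT, hc⟩
  let St : Fin (s + 1) × Fin (s + 2) → Fin n ⊕ Fin n → Prop :=
    fun z => Sum.elim (fun a => α a = z.1) fun b => π b z.1 = z.2
  have key : ∀ i, ∃ z, ∀ x ∈ T i, St z x := fun i => by
    obtain ⟨k, H, hH, e⟩ := hT i
    rw [← e]
    have step : ∀ x y j, (colG c k).Adj x y → St (j, k) x → St (j, k) y := by
      rintro x y j ⟨-, ⟨a, b, rfl, rfl, h⟩ | ⟨a, b, rfl, rfl, h⟩⟩ h'
      · exact (show α a = j from h') ▸ h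
      · exact (π b).injective (h.trans (show π b j = k from h').symm)
    have all : ∀ j (x y : H.verts), St (j, k) x → St (j, k) y := fun j x y h => by
      obtain ⟨w⟩ := hH.1 x y
      induction w with
      | nil => exact h
      | cons a _ ih => exact ih (step _ _ _ (H.adj_sub a) h)
    by_cases h : ∃ j, ∃ x : H.verts, St (j, k) x
    · obtain ⟨j, x, h⟩ := h
      exact ⟨(j, k), fun y hy => all j x ⟨y, hy⟩ h⟩
    obtain ⟨x⟩ := hH.1.nonempty
    have : ∀ y : H.verts, y = x := fun y => by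
      obtain ⟨w⟩ := hH.1 y x
      cases w with
      | nil => rfl
      | cons a _ =>
        obtain ⟨-, ⟨a, b, e1, e2, h1⟩ | ⟨a, b, e1, e2, h1⟩⟩ := H.adj_sub a
        · exact absurd ⟨α a, _, by rw [e1]; rfl⟩ h
        · exact absurd ⟨α a, _, by rw [e1]; rfl⟩ h
    obtain ⟨a | b, hx⟩ := x
    · exact absurd ⟨α a, ⟨_, hx⟩, rfl⟩ h
    · refine ⟨(0, π b 0), fun y hy => ?_⟩
      obtain rfl : y = .inr b := congrArg Subtype.val (this ⟨y, hy⟩)
      rfl
  choose z hz using key
  have := count (univ.image z) (fun i => by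
      obtain ⟨a, rfl⟩ := hα i
      obtain ⟨j, hj⟩ := hc (.inl a)
      exact ⟨(z j).2, mem_image.2 ⟨j, mem_univ _, Prod.ext (hz j _ hj).symm rfl⟩⟩) fun f => by
      obtain ⟨b, rfl⟩ := hπ f
      obtain ⟨j, hj⟩ := hc (.inr b)
      exact ⟨(z j).1, mem_image.2 ⟨j, mem_univ _, Prod.ext rfl (hz j _ hj).symm⟩⟩
  have h2 := card_image_le (s := univ) (f := z)
  simp only [card_univ, Fintype.card_fin] at h2
  omega

end Pool.Agent.Results.MP_6f811f_co.Lower
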